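import Mathlib

set_option autoImplicit false

namespace Pool.Agent.Lib.MP_6e559c_co

open Finset

/-- first plane coordinate of element `x = 3 l + t`. -/
def y0 (x : ℕ) : ℝ := if x % 3 = 0 then 0 else 1

/-- second plane coordinate of element `x = 3 l + t`. -/
def y1 (n x : ℕ) : ℝ :=
  if x % 3 = 0 then 0 else if x % 3 = 1 then ((x / 3 : ℕ) : ℝ) else (((x / 3 + 1) % n : ℕ) : ℝ)

/-- The vector of element `x`: two plane coordinates, then the indicator of the leg `x / 3`. -/
def vec (n x : ℕ) : ℕ → ℝ := fun j =>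
  if j = 0 then y0 x else if j = 1 then y1 n x else if x / 3 + 2 = j then 1 else 0

/-- A vector of the plane. -/
def pl (a b : ℝ) : ℕ → ℝ := fun j => if j = 0 then a else if j = 1 then b else 0

@[simp] lemma vec_zero (n x : ℕ) : vec n x 0 = y0 x := by simp [vec]
@[simp] lemma vec_one (n x : ℕ) : vec n x 1 = y1 n x := by simp [vec]
lemma vec_leg (n x l : ℕ) : vec n x (l + 2) = if x / 3 = l then 1 else 0 := by
  simp [vec]

/-- Independence modulo a subspace. -/
def IndW (W : Submodule ℝ (ℕ → ℝ)) (n : ℕ) (s : Finset ℕ) : Prop :=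
  ∀ c : ℕ → ℝ, ∑ x ∈ s, c x • vec n x ∈ W → ∀ x ∈ s, c x = 0

lemma indW_bot_iff (n : ℕ) (s : Finset ℕ) :
    IndW ⊥ n s ↔ LinearIndepOn ℝ (vec n) (s : Set ℕ) := by
  rw [linearIndepOn_finset_iff]; simp [IndW]

/-- The vector matroid on a finite set. -/
noncomputable def vecMatroid {V : Type} [AddCommGroup V] [Module ℝ V] (v : ℕ → V) (E : Finset ℕ) :
    Matroid ℕ :=
  IndepMatroid.matroid <| IndepMatroid.ofFinite (E := (E : Set ℕ)) E.finite_toSet
    (fun I => I ⊆ (E : Set ℕ) ∧ LinearIndepOn ℝ v I)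
    ⟨Set.empty_subset _, linearIndepOn_empty _ _⟩
    (fun I J hJ hIJ => ⟨hIJ.trans hJ.1, hJ.2.mono hIJ⟩)
    (by
      intro I J hI hJ hlt
      by_contra hcon
      push Not at hcon
      have hIf : I.Finite := E.finite_toSet.subset hI.1
      have hJf : J.Finite := E.finite_toSet.subset hJ.1
      have hspan : ∀ e ∈ J, v e ∈ Submodule.span ℝ (v '' I) := by
        intro e he
        by_cases heI : e ∈ I
        · exact Submodule.subset_span ⟨e, heI, rfl⟩
        · by_contra hne
          exact hcon e he heI (Set.insert_subset (hJ.1 he) hI.1) (hI.2.insert hne)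
      have : Fintype J := hJf.fintype
      have : Fintype (v '' I) := (hIf.image v).fintype
      have h := linearIndependent_le_span_aux' (R := ℝ) (fun x : J => v x) hJ.2 (v '' I)
        (by rintro _ ⟨x, rfl⟩; exact hspan x x.2)
      have h1 : Fintype.card J = J.ncard := by
        rw [← Nat.card_coe_set_eq, Nat.card_eq_fintype_card]
      have h2 : Fintype.card (v '' I) = (v '' I).ncard := by
        rw [← Nat.card_coe_set_eq, Nat.card_eq_fintype_card]
      have h3 := Set.ncard_image_le (f := v) hIf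
      omega)
    (fun I hI => hI.1)

lemma vecMatroid_E {V : Type} [AddCommGroup V] [Module ℝ V] (v : ℕ → V) (E : Finset ℕ) :
    (vecMatroid v E).E = (E : Set ℕ) := rfl

lemma vecMatroid_indep {V : Type} [AddCommGroup V] [Module ℝ V] (v : ℕ → V) (E : Finset ℕ)
    (I : Set ℕ) : (vecMatroid v E).Indep I ↔ I ⊆ (E : Set ℕ) ∧ LinearIndepOn ℝ v I := by
  simp [vecMatroid]

/-- The matroid `M_n` with `n` legs. -/
noncomputable def Mat (n : ℕ) : Matroid ℕ := vecMatroid (vec n) (range (3 * n))

/-- Description of the minors of `M_n`. -/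
lemma minor_desc {n : ℕ} {N : Matroid ℕ} (h : N.IsMinor (Mat n)) :
    ∃ B : Set ℕ, N.E ⊆ (range (3 * n) : Finset ℕ) ∧
      ∀ s : Finset ℕ, (s : Set ℕ) ⊆ N.E →
        (N.Indep s ↔ IndW (Submodule.span ℝ (vec n '' B)) n s) := by
  obtain ⟨C, D, rfl⟩ := h
  obtain ⟨B, hB⟩ := (Mat n).exists_isBasis' C
  refine ⟨B, fun x hx => hx.1.1, fun s hs => ?_⟩
  have hsE : (s : Set ℕ) ⊆ (range (3 * n) : Finset ℕ) := fun x hx => (hs hx).1.1
  have hsC : Disjoint C (s : Set ℕ) := Set.disjoint_right.2 fun x hx => (hs hx).1.2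
  have hsD : Disjoint (s : Set ℕ) D := Set.disjoint_left.2 fun x hx => (hs hx).2
  have hBi := (vecMatroid_indep _ _ _).1 hB.indep
  have hBs : Disjoint B (s : Set ℕ) := hsC.mono_left hB.subset
  rw [Matroid.delete_indep_iff, hB.contract_indep_iff, and_iff_left hsD, and_iff_left hsC, Mat,
    vecMatroid_indep, and_iff_right (Set.union_subset hsE hBi.1), Set.union_comm,
    ← hBi.2.quotient_iff_union hBs, linearIndepOn_finset_iff]
  unfold IndW
  refine forall_congr' fun c => imp_congr_left ?_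
  rw [← Submodule.Quotient.mk_eq_zero, ← Submodule.mkQ_apply, map_sum]
  simp

end Pool.Agent.Lib.MP_6e559c_co
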