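import Pool.Agent.Lib.MP_6e559c_co.Basic

set_option autoImplicit false

namespace Pool.Agent.Lib.MP_6e559c_co

open Finset

/-- the coordinate of a leg not met by `B` vanishes on the span of `B`. -/
lemma span_leg_zero {n : ℕ} {B : Set ℕ} {l : ℕ} (hl : ∀ b ∈ B, b / 3 ≠ l) {w : ℕ → ℝ}
    (hw : w ∈ Submodule.span ℝ (vec n '' B)) : w (l + 2) = 0 := by
  induction hw using Submodule.span_induction with
  | mem x hx =>
    obtain ⟨b, hb, rfl⟩ := hx
    rw [vec_leg, if_neg (hl b hb)]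
  | zero => rfl
  | add x y _ _ hx hy => simp [hx, hy]
  | smul a x _ hx => simp [hx]

/-- adding an element that is alone in a leg not met by `B`. -/
lemma indW_insert {n : ℕ} {B : Set ℕ} {s : Finset ℕ} {e : ℕ} (hB : ∀ b ∈ B, b / 3 ≠ e / 3)
    (hs : ∀ x ∈ s, x / 3 ≠ e / 3) (h : IndW (Submodule.span ℝ (vec n '' B)) n s) :
    IndW (Submodule.span ℝ (vec n '' B)) n (insert e s) := by
  intro c hc
  have hes : e ∉ s := fun he => hs e he rfl
  rw [sum_insert hes] at hc
  have h0 := span_leg_zero hB hc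
  have h1 : (∑ x ∈ s, c x • vec n x) (e / 3 + 2) = 0 := by
    rw [Finset.sum_apply]
    refine sum_eq_zero fun x hx => ?_
    simp [vec_leg, hs x hx]
  have hce : c e = 0 := by
    simpa [vec_leg, h1] using h0
  rw [hce, zero_smul, zero_add] at hc
  intro x hx
  rcases mem_insert.1 hx with rfl | hx
  · exact hce
  · exact h c hc x hx

lemma vec_sub {n x b : ℕ} (h : b / 3 = x / 3) :
    vec n x - vec n b = pl (y0 x - y0 b) (y1 n x - y1 n b) := by
  funext j
  simp only [Pi.sub_apply, vec, pl, h]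
  split_ifs <;> simp

lemma three_plane (a1 b1 a2 b2 a3 b3 : ℝ) :
    ∃ c1 c2 c3 : ℝ, (c1 ≠ 0 ∨ c2 ≠ 0 ∨ c3 ≠ 0) ∧ c1 * a1 + c2 * a2 + c3 * a3 = 0 ∧
      c1 * b1 + c2 * b2 + c3 * b3 = 0 := by
  by_cases h : a2 * b3 - a3 * b2 ≠ 0 ∨ a3 * b1 - a1 * b3 ≠ 0 ∨ a1 * b2 - a2 * b1 ≠ 0
  · exact ⟨_, _, _, h, by ring, by ring⟩
  · push Not at h
    obtain ⟨h1, h2, h3⟩ := h
    by_cases ha : a1 ≠ 0 ∨ a2 ≠ 0
    · refine ⟨a2, -a1, 0, ?_, by ring, by linarith⟩
      rcases ha with ha | ha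
      · exact Or.inr (Or.inl (neg_ne_zero.2 ha))
      · exact Or.inl ha
    · push Not at ha
      obtain ⟨ha1, ha2⟩ := ha
      by_cases hb : b1 ≠ 0
      · exact ⟨b2, -b1, 0, Or.inr (Or.inl (neg_ne_zero.2 hb)), by simp [ha1, ha2], by ring⟩
      · push Not at hb
        exact ⟨1, 0, 0, Or.inl one_ne_zero, by simp [ha1], by simp [hb]⟩

lemma sum_three {x y z : ℕ} (hxy : x ≠ y) (hxz : x ≠ z) (hyz : y ≠ z) (g : ℕ → (ℕ → ℝ)) :
    ∑ i ∈ ({x, y, z} : Finset ℕ), g i = g x + g y + g z := by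
  rw [sum_insert (by simp [hxy, hxz]), sum_insert (by simp [hyz]), sum_singleton, add_assoc]

/-- three elements in legs met by `B` are dependent modulo the span of `B`. -/
lemma not_indW_three {n : ℕ} {B : Set ℕ} {x y z : ℕ} (hxy : x ≠ y) (hxz : x ≠ z) (hyz : y ≠ z)
    (hx : ∃ b ∈ B, b / 3 = x / 3) (hy : ∃ b ∈ B, b / 3 = y / 3) (hz : ∃ b ∈ B, b / 3 = z / 3) :
    ¬ IndW (Submodule.span ℝ (vec n '' B)) n {x, y, z} := by
  obtain ⟨b1, hb1, e1⟩ := hx
  obtain ⟨b2, hb2, e2⟩ := hy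
  obtain ⟨b3, hb3, e3⟩ := hz
  obtain ⟨c1, c2, c3, hne, h0, h1⟩ := three_plane (y0 x - y0 b1) (y1 n x - y1 n b1)
    (y0 y - y0 b2) (y1 n y - y1 n b2) (y0 z - y0 b3) (y1 n z - y1 n b3)
  intro h
  have key := h (fun i => if i = x then c1 else if i = y then c2 else c3) (by
    rw [sum_three hxy hxz hyz]
    simp only [if_true, if_neg hxy.symm, if_neg hxz.symm, if_neg hyz.symm]
    have e : c1 • vec n x + c2 • vec n y + c3 • vec n z =
        c1 • vec n b1 + c2 • vec n b2 + c3 • vec n b3 := by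
      have : c1 • (vec n x - vec n b1) + c2 • (vec n y - vec n b2) + c3 • (vec n z - vec n b3) = 0 := by
        rw [vec_sub e1, vec_sub e2, vec_sub e3]
        funext j
        simp only [Pi.add_apply, Pi.smul_apply, pl, smul_eq_mul, Pi.zero_apply]
        split_ifs
        · exact h0
        · exact h1
        · simp
      rw [← sub_eq_zero, ← this]
      module
    rw [e]
    refine Submodule.add_mem _ (Submodule.add_mem _ ?_ ?_) ?_ <;>
      exact Submodule.smul_mem _ _ (Submodule.subset_span ⟨_, by assumption, rfl⟩))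
  have k1 := key x (by simp)
  have k2 := key y (by simp)
  have k3 := key z (by simp)
  simp only [if_true, if_neg hxy.symm, if_neg hxz.symm, if_neg hyz.symm] at k1 k2 k3
  tauto

lemma succ_mod_ne {n l : ℕ} (hn : 2 ≤ n) (hl : l < n) : (l + 1) % n ≠ l := by
  rcases Nat.lt_or_ge (l + 1) n with h | h
  · rw [Nat.mod_eq_of_lt h]; omega
  · have : l + 1 = n := by omega
    rw [this, Nat.mod_self]; omega

lemma succ_mod_inj {n i j : ℕ} (hi : i < n) (hj : j < n) (h : (i + 1) % n = (j + 1) % n) :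
    i = j := by
  rcases Nat.lt_or_ge (i + 1) n with h1 | h1 <;> rcases Nat.lt_or_ge (j + 1) n with h2 | h2
  · rw [Nat.mod_eq_of_lt h1, Nat.mod_eq_of_lt h2] at h; omega
  · have : j + 1 = n := by omega
    rw [Nat.mod_eq_of_lt h1, this, Nat.mod_self] at h; omega
  · have : i + 1 = n := by omega
    rw [Nat.mod_eq_of_lt h2, this, Nat.mod_self] at h; omega
  · omega

/-- two distinct elements are independent. -/
lemma pair_indep {n x y : ℕ} (hn : 2 ≤ n) (hx : x < 3 * n) (hxy : x ≠ y) {c1 c2 : ℝ}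
    (h : c1 • vec n x + c2 • vec n y = 0) : c1 = 0 ∧ c2 = 0 := by
  have h0 := congrFun h 0
  have h1 := congrFun h 1
  have h2 := congrFun h (x / 3 + 2)
  have h3 := congrFun h (y / 3 + 2)
  simp only [Pi.add_apply, Pi.smul_apply, smul_eq_mul, Pi.zero_apply, vec_zero, vec_one,
    vec_leg, if_true] at h0 h1 h2 h3
  by_cases hl : y / 3 = x / 3
  · rw [if_pos hl] at h2
    have hne : (((x / 3 + 1) % n : ℕ) : ℝ) ≠ ((x / 3 : ℕ) : ℝ) := by
      exact_mod_cast succ_mod_ne hn (by omega)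
    have hc : c2 = -c1 := by linarith
    subst hc
    simp only [y0, y1, hl] at h0 h1
    have : c1 = 0 := by
      split_ifs at h0 h1 <;> first
        | omega
        | linarith
        | (by_contra hc; apply hne; apply mul_left_cancel₀ hc; linarith)
    simp [this]
  · rw [if_neg hl] at h2
    rw [if_neg (Ne.symm hl)] at h3
    constructor <;> linarith

/-- three distinct elements of `M_n` are independent. -/
lemma triple_indep {n x y z : ℕ} (hn : 2 ≤ n) (hx : x < 3 * n) (hy : y < 3 * n)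
    (hxy : x ≠ y) (hxz : x ≠ z) (hyz : y ≠ z) {c1 c2 c3 : ℝ}
    (h : c1 • vec n x + c2 • vec n y + c3 • vec n z = 0) : c1 = 0 ∧ c2 = 0 ∧ c3 = 0 := by
  have h0 := congrFun h 0
  have h1 := congrFun h 1
  have h2 := congrFun h (x / 3 + 2)
  have h3 := congrFun h (y / 3 + 2)
  have h4 := congrFun h (z / 3 + 2)
  simp only [Pi.add_apply, Pi.smul_apply, smul_eq_mul, Pi.zero_apply, vec_zero, vec_one,
    vec_leg, if_true] at h0 h1 h2 h3 h4
  by_cases hl1 : y / 3 = x / 3 <;> by_cases hl2 : z / 3 = x / 3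
  · have hne : (((x / 3 + 1) % n : ℕ) : ℝ) ≠ ((x / 3 : ℕ) : ℝ) := by
      exact_mod_cast succ_mod_ne hn (by omega)
    rw [if_pos hl1, if_pos hl2] at h2
    simp only [y0, y1, hl1, hl2] at h0 h1
    have hsub : (((x / 3 + 1) % n : ℕ) : ℝ) - ((x / 3 : ℕ) : ℝ) ≠ 0 := sub_ne_zero.2 hne
    split_ifs at h0 h1 <;> first
      | omega
      | (have k : c1 = 0 := by linarith
         have k' : c2 = 0 := by
           first
           | (apply mul_left_cancel₀ hsub; linear_combination h1 - ((x / 3 : ℕ) : ℝ) * h0)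
           | (apply mul_left_cancel₀ hsub; linear_combination (((x / 3 + 1) % n : ℕ) : ℝ) * h0 - h1)
         exact ⟨k, k', by linarith⟩)
      | (have k : c2 = 0 := by linarith
         have k' : c1 = 0 := by
           first
           | (apply mul_left_cancel₀ hsub; linear_combination h1 - ((x / 3 : ℕ) : ℝ) * h0)
           | (apply mul_left_cancel₀ hsub; linear_combination (((x / 3 + 1) % n : ℕ) : ℝ) * h0 - h1)
         exact ⟨k', k, by linarith⟩)
      | (have k : c3 = 0 := by linarith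
         have k' : c1 = 0 := by
           first
           | (apply mul_left_cancel₀ hsub; linear_combination h1 - ((x / 3 : ℕ) : ℝ) * h0)
           | (apply mul_left_cancel₀ hsub; linear_combination (((x / 3 + 1) % n : ℕ) : ℝ) * h0 - h1)
         exact ⟨k', by linarith, k⟩)
  · have k : c3 = 0 := by
      rw [if_neg (Ne.symm hl2), if_neg (by omega)] at h4; linarith
    rw [k, zero_smul, add_zero] at h
    obtain ⟨a, b⟩ := pair_indep hn hx hxy h
    exact ⟨a, b, k⟩
  · have k : c2 = 0 := by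
      rw [if_neg (Ne.symm hl1), if_neg (by omega)] at h3; linarith
    rw [k, zero_smul, add_zero] at h
    obtain ⟨a, b⟩ := pair_indep hn hx hxz h
    exact ⟨a, k, b⟩
  · have k : c1 = 0 := by
      rw [if_neg hl1, if_neg hl2] at h2; linarith
    rw [k, zero_smul, zero_add] at h
    obtain ⟨a, b⟩ := pair_indep hn hy hyz h
    exact ⟨k, a, b⟩

lemma indW_three {n x y z : ℕ} (hn : 2 ≤ n) (hx : x < 3 * n) (hy : y < 3 * n)
    (hxy : x ≠ y) (hxz : x ≠ z) (hyz : y ≠ z) : IndW ⊥ n {x, y, z} := by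
  intro c hc
  rw [sum_three hxy hxz hyz, Submodule.mem_bot] at hc
  obtain ⟨a, b, d⟩ := triple_indep hn hx hy hxy hxz hyz hc
  intro w hw
  simp only [mem_insert, mem_singleton] at hw
  rcases hw with rfl | rfl | rfl <;> assumption

lemma indW_of_card_three {n : ℕ} (hn : 2 ≤ n) {s : Finset ℕ} (hs : s ⊆ range (3 * n))
    (h3 : s.card = 3) : IndW ⊥ n s := by
  obtain ⟨x, y, z, hxy, hxz, hyz, rfl⟩ := card_eq_three.1 h3
  exact indW_three hn (mem_range.1 (hs (by simp))) (mem_range.1 (hs (by simp))) hxy hxz hyz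

/-- the key four-element computation. -/
lemma four_aux {m i y z : ℕ} (hm : 2 ≤ m) (hi : i < m) (hy : y < 3 * m)
    (hyz : y ≠ z) (hyi : y / 3 ≠ i) (hzi : z / 3 ≠ i) (hy1 : y / 3 ≠ (i + 1) % m)
    {c0 c1 c2 c3 : ℝ}
    (h : c0 • vec m (3 * i) + c1 • vec m (3 * i + 2) + c2 • vec m y + c3 • vec m z = 0) :
    c0 = 0 := by
  have h0 := congrFun h 0
  have h1 := congrFun h 1
  have h2 := congrFun h (i + 2)
  have h3 := congrFun h (y / 3 + 2)
  have h4 := congrFun h (z / 3 + 2)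
  have e1 : 3 * i / 3 = i := by omega
  have e2 : (3 * i + 2) / 3 = i := by omega
  have e3 : 3 * i % 3 = 0 := by omega
  have e4 : (3 * i + 2) % 3 = 2 := by omega
  simp only [Pi.add_apply, Pi.smul_apply, smul_eq_mul, Pi.zero_apply, vec_zero, vec_one,
    vec_leg, if_true, e1, e2, if_neg hyi, if_neg hzi, if_neg hyi.symm, if_neg hzi.symm]
    at h0 h1 h2 h3 h4
  have f1 : y0 (3 * i) = 0 := by simp [y0]
  have f2 : y0 (3 * i + 2) = 1 := by simp [y0, e4]
  have f3 : y1 m (3 * i) = 0 := by simp [y1]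
  have f4 : y1 m (3 * i + 2) = (((i + 1) % m : ℕ) : ℝ) := by simp [y1, e4, e2]
  rw [f1, f2] at h0
  rw [f3, f4] at h1
  have hc : c1 = -c0 := by linarith
  subst hc
  by_cases hl : z / 3 = y / 3
  · rw [if_pos hl] at h3
    have hc : c3 = -c2 := by linarith
    subst hc
    have n1 : (((i + 1) % m : ℕ) : ℝ) - ((y / 3 : ℕ) : ℝ) ≠ 0 := by
      rw [sub_ne_zero]; exact_mod_cast hy1.symm
    have n2 : (((i + 1) % m : ℕ) : ℝ) - (((y / 3 + 1) % m : ℕ) : ℝ) ≠ 0 := by
      rw [sub_ne_zero]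
      have : (i + 1) % m ≠ (y / 3 + 1) % m := fun h => hyi (succ_mod_inj hi (by omega) h).symm
      exact_mod_cast this
    simp only [y0, y1, hl] at h0 h1
    split_ifs at h0 h1 <;> first
      | omega
      | linarith
      | (apply mul_left_cancel₀ n1; linear_combination ((y / 3 : ℕ) : ℝ) * h0 - h1)
      | (apply mul_left_cancel₀ n2; linear_combination (((y / 3 + 1) % m : ℕ) : ℝ) * h0 - h1)
  · rw [if_neg hl] at h3
    rw [if_neg (Ne.symm hl)] at h4
    have k2 : c2 = 0 := by linarith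
    have k3 : c3 = 0 := by linarith
    rw [k2, k3] at h0
    linarith

end Pool.Agent.Lib.MP_6e559c_co
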