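import Mathlib

set_option autoImplicit false

namespace Pool.Agent.Lib.MP_6e559c_co

/-- Isomorphism of matroids: a bijection of the ground sets preserving independence both ways. -/
def Iso (M N : Matroid ℕ) : Prop :=
  ∃ f : ℕ → ℕ, Set.BijOn f M.E N.E ∧ ∀ I ⊆ M.E, M.Indep I ↔ N.Indep (f '' I)

/-- Vector matroid of the columns of a real matrix. -/
def RealRep (M : Matroid ℕ) : Prop :=
  ∃ (k : ℕ) (v : ℕ → Fin k → ℝ), ∀ I, M.Indep I ↔ I ⊆ M.E ∧ LinearIndepOn ℝ v I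

/-- The uniform matroid of rank `r` on `n` elements. -/
def IsUnif (r n : ℕ) (M : Matroid ℕ) : Prop :=
  M.E.encard = n ∧ ∀ I, M.Indep I ↔ I ⊆ M.E ∧ I.encard ≤ r

/-- Connected: no proper nonempty separator. -/
def Conn (M : Matroid ℕ) : Prop :=
  ∀ X ⊆ M.E, X.Nonempty → X ≠ M.E → ∃ C, M.IsCircuit C ∧ (C ∩ X).Nonempty ∧ (C \ X).Nonempty

end Pool.Agent.Lib.MP_6e559c_co
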