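import Pool.Agent.Lib.MP_6e559c_co.Main
import Pool.Agent.Lib.MP_6e559c_co.HDefs

set_option autoImplicit false

namespace Pool.Agent.Lib.MP_6e559c_co

open Finset

lemma mat_E (n : ℕ) : (Mat n).E = ((range (3 * n) : Finset ℕ) : Set ℕ) := rfl

lemma mat_indep (n : ℕ) (s : Finset ℕ) (hs : s ⊆ range (3 * n)) :
    (Mat n).Indep (s : Set ℕ) ↔ IndW ⊥ n s := by
  rw [indW_bot_iff, Mat, vecMatroid_indep, and_iff_right (by exact_mod_cast hs)]

lemma small_indep {n : ℕ} (hn : 3 ≤ n) (I : Set ℕ) (hI : I ⊆ (Mat n).E) (h3 : I.encard ≤ 3) :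
    (Mat n).Indep I := by
  have hE : (3 : ℕ∞) ≤ (Mat n).E.encard := by
    rw [mat_E, Set.encard_coe_eq_coe_finsetCard, card_range]
    exact_mod_cast (by omega : 3 ≤ 3 * n)
  obtain ⟨J, hIJ, hJE, hJ⟩ := Set.exists_superset_subset_encard_eq hI h3 hE
  obtain ⟨s, rfl⟩ : ∃ s : Finset ℕ, (s : Set ℕ) = J :=
    ⟨((range (3 * n)).finite_toSet.subset hJE).toFinset, by simp⟩
  have hs : s ⊆ range (3 * n) := by rw [mat_E] at hJE; exact_mod_cast hJE
  rw [Set.encard_coe_eq_coe_finsetCard] at hJ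
  exact ((mat_indep n s hs).2
    (indW_of_card_three (by omega) hs (by exact_mod_cast hJ))).subset hIJ

lemma circ {n l : ℕ} (hn : 3 ≤ n) (hl : l < n) :
    (Mat n).IsCircuit ({3 * l, 3 * l + 2, 3 * ((l + 1) % n) + 1, 3 * ((l + 1) % n)} : Set ℕ) := by
  have h1 := succ_mod_ne (n := n) (l := l) (by omega) hl
  have h2 : (l + 1) % n < n := Nat.mod_lt _ (by omega)
  have rA := relA n l
  generalize (l + 1) % n = m at h1 h2 rA
  have hs : ({3 * l, 3 * l + 2, 3 * m + 1, 3 * m} : Finset ℕ) ⊆ range (3 * n) := by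
    intro w hw
    simp only [mem_insert, mem_singleton] at hw
    rw [mem_range]; omega
  have e : ({3 * l, 3 * l + 2, 3 * m + 1, 3 * m} : Set ℕ) =
      (({3 * l, 3 * l + 2, 3 * m + 1, 3 * m} : Finset ℕ) : Set ℕ) := by simp
  have hE : ({3 * l, 3 * l + 2, 3 * m + 1, 3 * m} : Set ℕ) ⊆ (Mat n).E := by
    rw [e, mat_E]; exact_mod_cast hs
  refine Matroid.isCircuit_iff_forall_ssubset.2 ⟨⟨?_, hE⟩, fun I hI => ?_⟩
  · rw [e, mat_indep n _ hs]
    refine not_indW_four (by omega) (by omega) (by omega) (by omega) (by omega) (by omega)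
      (-1) 1 (-1) ?_
    linear_combination (norm := module) (-1 : ℝ) • rA
  · refine small_indep hn I (hI.subset.trans hE) ?_
    have h4 : ({3 * l, 3 * l + 2, 3 * m + 1, 3 * m} : Set ℕ).encard ≤ 4 := by
      rw [e, Set.encard_coe_eq_coe_finsetCard]
      exact_mod_cast card_le_four
    have := (Set.Finite.encard_lt_encard ((Set.toFinite _).subset hI.subset) hI).trans_le h4
    exact Order.le_of_lt_add_one (by rwa [show (3 : ℕ∞) + 1 = 4 by norm_num])

lemma conn {n : ℕ} (hn : 3 ≤ n) : Conn (Mat n) := by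
  intro X hX hne hXE
  by_contra hcon
  push Not at hcon
  have key : ∀ l, l < n → ∀ a ∈ ({3 * l, 3 * l + 2, 3 * ((l + 1) % n) + 1, 3 * ((l + 1) % n)} : Set ℕ),
      ∀ b ∈ ({3 * l, 3 * l + 2, 3 * ((l + 1) % n) + 1, 3 * ((l + 1) % n)} : Set ℕ), a ∈ X → b ∈ X := by
    intro l hl a ha b hb haX
    by_contra hbX
    have := hcon _ (circ hn hl) ⟨a, ha, haX⟩
    exact (Set.eq_empty_iff_forall_notMem.1 this) b ⟨hb, hbX⟩
  have k0 : ∀ l, l < n → (3 * l ∈ X ↔ 0 ∈ X) := by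
    intro l
    induction l with
    | zero => simp
    | succ l ih =>
      intro hl
      have e : (l + 1) % n = l + 1 := Nat.mod_eq_of_lt hl
      have k := key l (by omega)
      rw [e] at k
      rw [← ih (by omega)]
      exact ⟨k _ (by simp) _ (by simp), k _ (by simp) _ (by simp)⟩
  have k1 : ∀ x, x < 3 * n → (x ∈ X ↔ 0 ∈ X) := by
    intro x hx
    obtain ⟨l, hl⟩ : ∃ l, l = x / 3 := ⟨_, rfl⟩
    have hln : l < n := by omega
    rw [← k0 l hln]
    rcases (by omega : x = 3 * l ∨ x = 3 * l + 1 ∨ x = 3 * l + 2) with h | h | h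
    · rw [h]
    · obtain ⟨p, hp, hpl⟩ : ∃ p, p < n ∧ (p + 1) % n = l := by
        rcases Nat.eq_zero_or_pos l with h0 | h0
        · exact ⟨n - 1, by omega, by rw [show n - 1 + 1 = n by omega, Nat.mod_self, h0]⟩
        · exact ⟨l - 1, by omega, by rw [show l - 1 + 1 = l by omega, Nat.mod_eq_of_lt hln]⟩
      have k := key p hp
      rw [hpl] at k
      rw [h]
      exact ⟨k _ (by simp) _ (by simp), k _ (by simp) _ (by simp)⟩
    · have k := key l hln
      rw [h]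
      exact ⟨k _ (by simp) _ (by simp), k _ (by simp) _ (by simp)⟩
  have lt : ∀ x ∈ (Mat n).E, x < 3 * n := fun x hx => by simpa [mat_E] using hx
  obtain ⟨a, ha⟩ := hne
  exact hXE (hX.antisymm fun x hx => (k1 x (lt x hx)).2 ((k1 a (lt a (hX ha))).1 ha))

lemma not_iso_minor {n m : ℕ} (hn : 3 ≤ n) (hm : 3 ≤ m) (h : n ≠ m) :
    ¬ ∃ N, N.IsMinor (Mat m) ∧ Iso (Mat n) N := by
  rintro ⟨N, hN, f, hf, hI⟩
  refine antichain hn hm h f hf.injOn ?_
  convert hN
  refine Matroid.ext_indep (by rw [Matroid.map_ground, hf.image_eq]) fun I hIE => ?_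
  rw [Matroid.map_ground] at hIE
  obtain ⟨J, hJ, rfl⟩ := Set.subset_image_iff.1 hIE
  rw [Matroid.map_image_indep_iff hJ, hI J hJ]

theorem hedge : ∃ A : Set (Matroid ℕ), A.Infinite ∧
    (∀ M ∈ A, M.E.Finite ∧ RealRep M ∧ Conn M ∧ (∀ I ⊆ M.E, I.encard ≤ 3 → M.Indep I) ∧
      ¬ ∃ N, N.IsMinor M ∧ IsUnif 3 6 N) ∧
    ∀ M ∈ A, ∀ M' ∈ A, M ≠ M' → ¬ ∃ N, N.IsMinor M' ∧ Iso M N := by
  refine ⟨Set.range fun i => Mat (i + 3), Set.infinite_range_of_injective fun i j hij => ?_, ?_, ?_⟩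
  · have := congrArg (fun M : Matroid ℕ => M.E) hij
    simp only [mat_E, coe_inj] at this
    have := congrArg card this
    simp only [card_range] at this
    omega
  · rintro _ ⟨i, rfl⟩
    refine ⟨(range _).finite_toSet, ?_, conn (by omega), small_indep (by omega), ?_⟩
    · obtain ⟨k, v, hv⟩ := representable (i + 3)
      exact ⟨k, v, fun I => ⟨fun h => ⟨h.subset_ground, (hv I h.subset_ground).1 h⟩,
        fun h => (hv I h.1).2 h.2⟩⟩
    · rintro ⟨N, h1, h2, h3⟩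
      exact no_U36 _ ⟨N, h1, by exact_mod_cast h2, by exact_mod_cast h3⟩
  · rintro _ ⟨i, rfl⟩ _ ⟨j, rfl⟩ hne
    exact not_iso_minor (by omega) (by omega) fun h => hne (congrArg Mat h)

end Pool.Agent.Lib.MP_6e559c_co
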