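import Pool.Agent.Lib.MP_6e559c_co.Core

set_option autoImplicit false

namespace Pool.Agent.Lib.MP_6e559c_co

open Finset

/-- A four-element set containing `3 i`, not containing `3 i + 1`, and missing the next leg,
is independent. -/
lemma four_indep {m i : ℕ} (hm : 2 ≤ m) (hi : i < m) {s : Finset ℕ} (hs : s ⊆ range (3 * m))
    (h3 : s.card = 3) (h0 : 3 * i ∉ s) (h1 : 3 * i + 1 ∉ s)
    (hnext : ∀ x ∈ s, x / 3 ≠ (i + 1) % m) : IndW ⊥ m (insert (3 * i) s) := by
  intro c hc
  rw [sum_insert h0] at hc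
  have hc0 : c (3 * i) = 0 := by
    obtain ⟨x, y, z, hxy, hxz, hyz, rfl⟩ := card_eq_three.1 h3
    rw [sum_three hxy hxz hyz, Submodule.mem_bot] at hc
    simp only [mem_insert, mem_singleton, not_or] at h0 h1
    have hx : x < 3 * m := mem_range.1 (hs (by simp))
    have hy : y < 3 * m := mem_range.1 (hs (by simp))
    have hz : z < 3 * m := mem_range.1 (hs (by simp))
    by_cases ex : x / 3 = i
    · have : x = 3 * i + 2 := by omega
      subst this
      refine four_aux hm hi hy hyz (by omega) (by omega) (hnext y (by simp))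
        (c1 := c (3 * i + 2)) (c2 := c y) (c3 := c z) ?_
      rw [← hc]; abel
    by_cases ey : y / 3 = i
    · have : y = 3 * i + 2 := by omega
      subst this
      refine four_aux hm hi hx hxz (by omega) (by omega) (hnext x (by simp))
        (c1 := c (3 * i + 2)) (c2 := c x) (c3 := c z) ?_
      rw [← hc]; abel
    by_cases ez : z / 3 = i
    · have : z = 3 * i + 2 := by omega
      subst this
      refine four_aux hm hi hx hxy (by omega) (by omega) (hnext x (by simp))
        (c1 := c (3 * i + 2)) (c2 := c x) (c3 := c y) ?_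
      rw [← hc]; abel
    have h2 := congrFun hc (i + 2)
    have e1 : 3 * i / 3 = i := by omega
    simpa [vec_leg, e1, ex, ey, ez] using h2
  rw [hc0, zero_smul, zero_add] at hc
  intro x hx
  rcases mem_insert.1 hx with rfl | hx
  · exact hc0
  · exact indW_of_card_three hm hs h3 c hc x hx

lemma not_indW_four {n e x y z : ℕ} (hex : e ≠ x) (hey : e ≠ y) (hez : e ≠ z) (hxy : x ≠ y)
    (hxz : x ≠ z) (hyz : y ≠ z) (c1 c2 c3 : ℝ)
    (h : vec n e + c1 • vec n x + c2 • vec n y + c3 • vec n z = 0) :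
    ¬ IndW ⊥ n (insert e {x, y, z}) := by
  intro hI
  have key := hI (fun i => if i = e then 1 else if i = x then c1 else if i = y then c2 else c3) (by
    rw [sum_insert (by simp [hex, hey, hez]), sum_three hxy hxz hyz, Submodule.mem_bot]
    simp only [if_true, if_neg hxy.symm, if_neg hxz.symm, if_neg hyz.symm, if_neg hex.symm,
      if_neg hey.symm, if_neg hez.symm, one_smul]
    rw [← h]; abel) e (by simp)
  simp at key

lemma relA (n l : ℕ) : vec n (3 * l + 2) - vec n (3 * l) =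
    vec n (3 * ((l + 1) % n) + 1) - vec n (3 * ((l + 1) % n)) := by
  rw [vec_sub (by omega), vec_sub (by omega)]
  have e2 : (3 * l + 2) / 3 = l := by omega
  have e4 : (3 * l + 2) % 3 = 2 := by omega
  have e5 : (3 * ((l + 1) % n) + 1) / 3 = (l + 1) % n := by omega
  have e6 : (3 * ((l + 1) % n) + 1) % 3 = 1 := by omega
  simp [y0, y1, e2, e4, e5, e6]

lemma relP (n l j : ℕ) (d : ℝ)
    (hd : (((l + 1) % n : ℕ) : ℝ) - (l : ℝ) = d * ((((j + 1) % n : ℕ) : ℝ) - (j : ℝ))) :
    vec n (3 * l + 2) - vec n (3 * l + 1) = d • (vec n (3 * j + 2) - vec n (3 * j + 1)) := by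
  rw [vec_sub (by omega), vec_sub (by omega)]
  have e1 : ∀ l : ℕ, (3 * l + 2) / 3 = l := fun l => by omega
  have e2 : ∀ l : ℕ, (3 * l + 2) % 3 = 2 := fun l => by omega
  have e3 : ∀ l : ℕ, (3 * l + 1) / 3 = l := fun l => by omega
  have e4 : ∀ l : ℕ, (3 * l + 1) % 3 = 1 := fun l => by omega
  funext k
  simp only [y0, y1, e1, e2, e3, e4, pl, Pi.smul_apply, smul_eq_mul]
  norm_num
  split_ifs
  · rfl
  · exact_mod_cast hd
  · rfl

/-- every element of `M_n` lies in two dependent four-element sets that meet only in it. -/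
lemma two_circuits {n e : ℕ} (hn : 3 ≤ n) (he : e < 3 * n) :
    ∃ I1 I2 : Finset ℕ, I1 ⊆ range (3 * n) ∧ I2 ⊆ range (3 * n) ∧ I1.card = 3 ∧ I2.card = 3 ∧
      e ∉ I1 ∧ e ∉ I2 ∧ Disjoint I1 I2 ∧ ¬ IndW ⊥ n (insert e I1) ∧ ¬ IndW ⊥ n (insert e I2) := by
  obtain ⟨l, hl⟩ : ∃ l, l = e / 3 := ⟨_, rfl⟩
  have hln : l < n := by omega
  obtain ⟨nx, hnx⟩ : ∃ nx, nx = (l + 1) % n := ⟨_, rfl⟩
  obtain ⟨pv, hpv, hpvn, hpl, hnl, hpn, hnn⟩ : ∃ pv, (pv + 1) % n = l ∧ pv < n ∧ pv ≠ l ∧ nx ≠ l ∧
      pv ≠ nx ∧ nx < n := by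
    rcases Nat.eq_zero_or_pos l with h0 | h0
    · refine ⟨n - 1, ?_, by omega, by omega, ?_, ?_, ?_⟩
      · rw [show n - 1 + 1 = n by omega, Nat.mod_self, h0]
      · rw [hnx, h0, Nat.mod_eq_of_lt (by omega)]; omega
      · rw [hnx, h0, Nat.mod_eq_of_lt (by omega)]; omega
      · rw [hnx]; exact Nat.mod_lt _ (by omega)
    · refine ⟨l - 1, ?_, by omega, by omega, ?_, ?_, ?_⟩
      · rw [show l - 1 + 1 = l by omega, Nat.mod_eq_of_lt hln]
      · rw [hnx]; exact succ_mod_ne (by omega) hln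
      · rcases Nat.lt_or_ge (l + 1) n with h | h
        · rw [hnx, Nat.mod_eq_of_lt h]; omega
        · rw [hnx, show l + 1 = n by omega, Nat.mod_self]; omega
      · rw [hnx]; exact Nat.mod_lt _ (by omega)
  have rA := relA n l
  have rB := relA n pv
  rw [← hnx] at rA
  rw [hpv] at rB
  have nz : ∀ j, j < n → (((j + 1) % n : ℕ) : ℝ) - (j : ℝ) ≠ 0 := fun j hj => by
    rw [sub_ne_zero]; exact_mod_cast succ_mod_ne (by omega) hj
  have sub3 : ∀ x y z : ℕ, x < 3 * n → y < 3 * n → z < 3 * n →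
      ({x, y, z} : Finset ℕ) ⊆ range (3 * n) := by
    intro x y z hx hy hz w hw
    simp only [mem_insert, mem_singleton] at hw
    rw [mem_range]; omega
  have card3 : ∀ x y z : ℕ, x ≠ y → x ≠ z → y ≠ z → ({x, y, z} : Finset ℕ).card = 3 :=
    fun x y z h1 h2 h3 => card_eq_three.2 ⟨x, y, z, h1, h2, h3, rfl⟩
  have h3 : e = 3 * l ∨ e = 3 * l + 1 ∨ e = 3 * l + 2 := by omega
  rcases h3 with h | h | h
  · refine ⟨{3 * l + 2, 3 * nx + 1, 3 * nx}, {3 * l + 1, 3 * pv + 2, 3 * pv},
      sub3 _ _ _ (by omega) (by omega) (by omega), sub3 _ _ _ (by omega) (by omega) (by omega),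
      card3 _ _ _ (by omega) (by omega) (by omega), card3 _ _ _ (by omega) (by omega) (by omega),
      by simp; omega, by simp; omega, by simp; omega, ?_, ?_⟩
    · refine not_indW_four (by omega) (by omega) (by omega) (by omega) (by omega) (by omega)
        (-1) 1 (-1) ?_
      rw [h]; linear_combination (norm := module) (-1 : ℝ) • rA
    · refine not_indW_four (by omega) (by omega) (by omega) (by omega) (by omega) (by omega)
        (-1) 1 (-1) ?_
      rw [h]; linear_combination (norm := module) rB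
  · obtain ⟨d, hd⟩ : ∃ d : ℝ, (((l + 1) % n : ℕ) : ℝ) - (l : ℝ) =
        d * ((((nx + 1) % n : ℕ) : ℝ) - (nx : ℝ)) := ⟨_, (div_mul_cancel₀ _ (nz nx hnn)).symm⟩
    have rP := relP n l nx d hd
    refine ⟨{3 * l, 3 * pv + 2, 3 * pv}, {3 * l + 2, 3 * nx + 2, 3 * nx + 1},
      sub3 _ _ _ (by omega) (by omega) (by omega), sub3 _ _ _ (by omega) (by omega) (by omega),
      card3 _ _ _ (by omega) (by omega) (by omega), card3 _ _ _ (by omega) (by omega) (by omega),
      by simp; omega, by simp; omega, by simp; omega, ?_, ?_⟩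
    · refine not_indW_four (by omega) (by omega) (by omega) (by omega) (by omega) (by omega)
        (-1) (-1) 1 ?_
      rw [h]; linear_combination (norm := module) (-1 : ℝ) • rB
    · refine not_indW_four (by omega) (by omega) (by omega) (by omega) (by omega) (by omega)
        (-1) d (-d) ?_
      rw [h]; linear_combination (norm := module) (-1 : ℝ) • rP
  · obtain ⟨d, hd⟩ : ∃ d : ℝ, (((l + 1) % n : ℕ) : ℝ) - (l : ℝ) =
        d * ((((pv + 1) % n : ℕ) : ℝ) - (pv : ℝ)) := ⟨_, (div_mul_cancel₀ _ (nz pv hpvn)).symm⟩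
    have rP := relP n l pv d hd
    refine ⟨{3 * l, 3 * nx + 1, 3 * nx}, {3 * l + 1, 3 * pv + 2, 3 * pv + 1},
      sub3 _ _ _ (by omega) (by omega) (by omega), sub3 _ _ _ (by omega) (by omega) (by omega),
      card3 _ _ _ (by omega) (by omega) (by omega), card3 _ _ _ (by omega) (by omega) (by omega),
      by simp; omega, by simp; omega, by simp; omega, ?_, ?_⟩
    · refine not_indW_four (by omega) (by omega) (by omega) (by omega) (by omega) (by omega)
        (-1) (-1) 1 ?_
      rw [h]; linear_combination (norm := module) rA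
    · refine not_indW_four (by omega) (by omega) (by omega) (by omega) (by omega) (by omega)
        (-1) (-d) d ?_
      rw [h]; linear_combination (norm := module) rP

lemma three_dvd_card {T : Finset ℕ} (h : ∀ x ∈ T, ∀ y, y / 3 = x / 3 → y ∈ T) : 3 ∣ T.card := by
  rw [card_eq_sum_card_image (fun x => x / 3) T]
  refine Finset.dvd_sum fun l hl => ?_
  obtain ⟨x, hx, rfl⟩ := mem_image.1 hl
  have : T.filter (fun y => y / 3 = x / 3) = {3 * (x / 3), 3 * (x / 3) + 1, 3 * (x / 3) + 2} := by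
    ext y
    simp only [mem_filter, mem_insert, mem_singleton]
    constructor
    · rintro ⟨_, h2⟩; omega
    · intro hy
      have : y / 3 = x / 3 := by omega
      exact ⟨h x hx y this, this⟩
  rw [this, card_eq_three.2 ⟨_, _, _, by omega, by omega, by omega, rfl⟩]

/-- if a full leg is independent modulo `W`, then `W` meets the plane trivially. -/
lemma plane_trivial {m l : ℕ} (hm : 2 ≤ m) (hl : l < m) {W : Submodule ℝ (ℕ → ℝ)}
    (h : IndW W m {3 * l, 3 * l + 1, 3 * l + 2}) {a b : ℝ} (hab : pl a b ∈ W) :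
    a = 0 ∧ b = 0 := by
  have nz : (((l + 1) % m : ℕ) : ℝ) - (l : ℝ) ≠ 0 := by
    rw [sub_ne_zero]; exact_mod_cast succ_mod_ne hm hl
  obtain ⟨d, hd⟩ : ∃ d : ℝ, b - a * l = d * ((((l + 1) % m : ℕ) : ℝ) - (l : ℝ)) :=
    ⟨_, (div_mul_cancel₀ _ nz).symm⟩
  have n1 : 3 * l + 1 ≠ 3 * l := by omega
  have n2 : 3 * l + 2 ≠ 3 * l := by omega
  have n3 : 3 * l + 2 ≠ 3 * l + 1 := by omega
  have key := h (fun i => if i = 3 * l then -a else if i = 3 * l + 1 then a - d else d) (by
    rw [sum_three n1.symm n2.symm n3.symm]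
    simp only [if_true, if_neg n1, if_neg n2, if_neg n3]
    convert hab using 1
    have e1 : (3 * l + 2) / 3 = l := by omega
    have e2 : (3 * l + 2) % 3 = 2 := by omega
    have e3 : (3 * l + 1) / 3 = l := by omega
    have e4 : (3 * l + 1) % 3 = 1 := by omega
    have e5 : (3 * l) / 3 = l := by omega
    have e6 : (3 * l) % 3 = 0 := by omega
    funext k
    simp only [Pi.add_apply, Pi.smul_apply, smul_eq_mul, vec, pl, y0, y1, e1, e2, e3, e4, e5, e6]
    split_ifs <;> first | contradiction | omega | linarith)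
  have k1 := key (3 * l) (by simp)
  have k3 := key (3 * l + 2) (by simp)
  simp only [if_true, if_neg n2, if_neg n3] at k1 k3
  have ha : a = 0 := by linarith
  refine ⟨ha, ?_⟩
  rw [ha, k3] at hd
  linarith

lemma indW_of_bot {m : ℕ} {B : Set ℕ} {s : Finset ℕ} (hs : ∀ x ∈ s, ∀ b ∈ B, b / 3 ≠ x / 3)
    (hW : ∀ a b : ℝ, pl a b ∈ Submodule.span ℝ (vec m '' B) → a = 0 ∧ b = 0)
    (h : IndW ⊥ m s) : IndW (Submodule.span ℝ (vec m '' B)) m s := by
  intro c hc
  apply h c
  rw [Submodule.mem_bot]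
  obtain ⟨u, hu⟩ : ∃ u, u = ∑ x ∈ s, c x • vec m x := ⟨_, rfl⟩
  rw [← hu] at hc ⊢
  have h2 : ∀ l, u (l + 2) = 0 := by
    intro l
    by_cases hl : ∃ x ∈ s, x / 3 = l
    · obtain ⟨x, hx, rfl⟩ := hl
      exact span_leg_zero (hs x hx) hc
    · push Not at hl
      rw [hu, Finset.sum_apply]
      exact sum_eq_zero fun x hx => by simp [vec_leg, hl x hx]
  have h3 : u = pl (u 0) (u 1) := by
    funext j
    match j with
    | 0 => simp [pl]
    | 1 => simp [pl]
    | j + 2 => simp [pl, h2]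
  obtain ⟨ha, hb⟩ := hW (u 0) (u 1) (h3 ▸ hc)
  rw [h3, ha, hb]
  funext j
  simp [pl]

theorem no_U36 (n : ℕ) : ¬ (∃ N : Matroid ℕ, N.IsMinor (Mat n) ∧ N.E.encard = 6 ∧
    ∀ I : Set ℕ, N.Indep I ↔ (I ⊆ N.E ∧ I.encard ≤ 3)) := by
  rintro ⟨N, hN, h6, hI⟩
  obtain ⟨B, -, hB⟩ := minor_desc hN
  have hfin : N.E.Finite := Set.finite_of_encard_eq_coe (k := 6) h6
  obtain ⟨F, hF⟩ : ∃ F : Finset ℕ, (F : Set ℕ) = N.E := ⟨hfin.toFinset, by simp⟩
  have hF6 : F.card = 6 := by
    rw [← hF, Set.encard_coe_eq_coe_finsetCard] at h6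
    exact_mod_cast h6
  have hind : ∀ s : Finset ℕ, s ⊆ F → (IndW (Submodule.span ℝ (vec n '' B)) n s ↔ s.card ≤ 3) := by
    intro s hs
    have hs' : (s : Set ℕ) ⊆ N.E := by rw [← hF]; exact_mod_cast hs
    rw [← hB s hs', hI, and_iff_right hs', Set.encard_coe_eq_coe_finsetCard]
    exact_mod_cast Iff.rfl
  have hhit : ∀ x ∈ F, ∃ b ∈ B, b / 3 = x / 3 := by
    intro x hx
    by_contra hcon
    push Not at hcon
    have hc : 3 ≤ (F.filter (fun y => y / 3 ≠ x / 3)).card := by
      have h1 : (F.filter (fun y => y / 3 = x / 3)).card ≤ 3 := by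
        calc _ ≤ ({3 * (x / 3), 3 * (x / 3) + 1, 3 * (x / 3) + 2} : Finset ℕ).card := by
              refine card_le_card fun y hy => ?_
              simp only [mem_filter] at hy
              simp only [mem_insert, mem_singleton]; omega
          _ ≤ 3 := card_le_three
      have h2 := card_filter_add_card_filter_not (s := F) (fun y => y / 3 = x / 3)
      simp only [ne_eq]
      omega
    obtain ⟨s, hs, hs3⟩ := exists_subset_card_eq hc
    have hsF : s ⊆ F := hs.trans (filter_subset _ _)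
    have hsx : ∀ y ∈ s, y / 3 ≠ x / 3 := fun y hy => (mem_filter.1 (hs hy)).2
    have h4 := indW_insert hcon hsx ((hind s hsF).2 hs3.le)
    rw [hind _ (insert_subset hx hsF), card_insert_of_notMem (fun h => hsx x h rfl)] at h4
    omega
  obtain ⟨s, hs, hs3⟩ := exists_subset_card_eq (show 3 ≤ F.card by omega)
  have h3 := (hind s hs).2 hs3.le
  obtain ⟨x, y, z, hxy, hxz, hyz, rfl⟩ := card_eq_three.1 hs3
  exact not_indW_three hxy hxz hyz (hhit x (hs (by simp))) (hhit y (hs (by simp)))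
    (hhit z (hs (by simp))) h3

theorem antichain {n m : ℕ} (hn : 3 ≤ n) (hm : 3 ≤ m) (hnm : n ≠ m) (f : ℕ → ℕ)
    (hf : Set.InjOn f (Mat n).E) : ¬ ((Mat n).map f hf).IsMinor (Mat m) := by
  intro hN
  obtain ⟨B, hE, hB⟩ := minor_desc hN
  have hf' : Set.InjOn f (range (3 * n) : Finset ℕ) := hf
  have hlt : ∀ x ∈ range (3 * n), f x < 3 * m := fun x hx => by
    have := hE ⟨x, hx, rfl⟩
    simpa using this
  obtain ⟨W, hW⟩ : ∃ W, W = Submodule.span ℝ (vec m '' B) := ⟨_, rfl⟩
  have hind : ∀ s : Finset ℕ, s ⊆ range (3 * n) → (IndW W m (s.image f) ↔ IndW ⊥ n s) := by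
    intro s hs
    have hs' : (s : Set ℕ) ⊆ (Mat n).E := by
      show (s : Set ℕ) ⊆ (range (3 * n) : Finset ℕ)
      exact_mod_cast hs
    rw [hW, ← hB _ (by rw [coe_image]; exact Set.image_mono hs'), coe_image,
      Matroid.map_image_indep_iff hs', indW_bot_iff, Mat, vecMatroid_indep,
      and_iff_right (by exact_mod_cast hs)]
  have hcard : ∀ s : Finset ℕ, s ⊆ range (3 * n) → (s.image f).card = s.card := fun s hs =>
    card_image_of_injOn (hf'.mono (by exact_mod_cast hs))
  classical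
  -- step 1
  have hH : ((range (3 * n)).filter (fun x => ∃ b ∈ B, b / 3 = f x / 3)).card ≤ 2 := by
    by_contra hcon
    obtain ⟨s, hs, hs3⟩ := exists_subset_card_eq (show 3 ≤ ((range (3 * n)).filter
      (fun x => ∃ b ∈ B, b / 3 = f x / 3)).card by omega)
    have hsr : s ⊆ range (3 * n) := hs.trans (filter_subset _ _)
    have h3 := (hind s hsr).2 (indW_of_card_three (by omega) hsr hs3)
    have h3' := (hcard s hsr).trans hs3
    obtain ⟨x, y, z, hxy, hxz, hyz, e⟩ := card_eq_three.1 h3'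
    have hh : ∀ w ∈ s.image f, ∃ b ∈ B, b / 3 = w / 3 := by
      intro w hw
      obtain ⟨v, hv, rfl⟩ := mem_image.1 hw
      exact (mem_filter.1 (hs hv)).2
    rw [e] at h3 hh
    rw [hW] at h3
    exact not_indW_three hxy hxz hyz (hh x (by simp)) (hh y (by simp)) (hh z (by simp)) h3
  -- step 2
  have hleg : ∀ e ∈ range (3 * n), (∀ b ∈ B, b / 3 ≠ f e / 3) → ∀ y, y / 3 = f e / 3 →
      ∃ x ∈ range (3 * n), f x = y := by
    intro e he hb y hy
    obtain ⟨I1, I2, s1, s2, c1, c2, e1, e2, hd, d1, d2⟩ := two_circuits hn (mem_range.1 he)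
    have aux : ∀ I : Finset ℕ, I ⊆ range (3 * n) → I.card = 3 → ¬ IndW ⊥ n (insert e I) →
        ∃ x ∈ I, f x / 3 = f e / 3 := by
      intro I hI hc hdep
      by_contra hcon
      push Not at hcon
      apply hdep
      rw [← hind _ (insert_subset he hI), image_insert, hW]
      refine indW_insert hb ?_ ?_
      · intro w hw
        obtain ⟨v, hv, rfl⟩ := mem_image.1 hw
        exact hcon v hv
      · rw [← hW, hind _ hI]
        exact indW_of_card_three (by omega) hI hc
    obtain ⟨x1, hx1, l1⟩ := aux I1 s1 c1 d1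
    obtain ⟨x2, hx2, l2⟩ := aux I2 s2 c2 d2
    have n1 : f x1 ≠ f e := fun h => e1 (hf' (s1 hx1) he h ▸ hx1)
    have n2 : f x2 ≠ f e := fun h => e2 (hf' (s2 hx2) he h ▸ hx2)
    have n3 : f x1 ≠ f x2 := fun h =>
      disjoint_left.1 hd hx1 (hf' (s1 hx1) (s2 hx2) h ▸ hx2)
    have : y = f e ∨ y = f x1 ∨ y = f x2 := by omega
    rcases this with h | h | h
    · exact ⟨e, he, h.symm⟩
    · exact ⟨x1, s1 hx1, h.symm⟩
    · exact ⟨x2, s2 hx2, h.symm⟩
  -- step 3
  have hun : ∀ e ∈ range (3 * n), ∀ b ∈ B, b / 3 ≠ f e / 3 := by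
    have h1 : 3 ∣ (((range (3 * n)).filter (fun x => ¬ ∃ b ∈ B, b / 3 = f x / 3)).image f).card := by
      refine three_dvd_card fun x hx y hy => ?_
      obtain ⟨e, he, rfl⟩ := mem_image.1 hx
      obtain ⟨he1, he2⟩ := mem_filter.1 he
      obtain ⟨x, hx1, rfl⟩ := hleg e he1 (fun b hb h => he2 ⟨b, hb, h⟩) y hy
      exact mem_image.2 ⟨x, mem_filter.2 ⟨hx1, by rwa [hy]⟩, rfl⟩
    rw [hcard _ (filter_subset _ _)] at h1
    have h2 := card_filter_add_card_filter_not (s := range (3 * n))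
      (fun x => ∃ b ∈ B, b / 3 = f x / 3)
    rw [card_range] at h2
    have h3 : ((range (3 * n)).filter (fun x => ∃ b ∈ B, b / 3 = f x / 3)).card = 0 := by omega
    intro e he b hb h
    have : e ∈ (range (3 * n)).filter (fun x => ∃ b ∈ B, b / 3 = f x / 3) :=
      mem_filter.2 ⟨he, b, hb, h⟩
    rw [card_eq_zero.1 h3] at this
    simp at this
  have hleg' : ∀ e ∈ range (3 * n), ∀ y, y / 3 = f e / 3 → ∃ x ∈ range (3 * n), f x = y :=
    fun e he => hleg e he (hun e he)
  have h0 : 0 ∈ range (3 * n) := mem_range.2 (by omega)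
  -- step 4
  have hpl : ∀ a b : ℝ, pl a b ∈ Submodule.span ℝ (vec m '' B) → a = 0 ∧ b = 0 := by
    obtain ⟨x, hx, ex⟩ := hleg' 0 h0 (3 * (f 0 / 3)) (by omega)
    obtain ⟨y, hy, ey⟩ := hleg' 0 h0 (3 * (f 0 / 3) + 1) (by omega)
    obtain ⟨z, hz, ez⟩ := hleg' 0 h0 (3 * (f 0 / 3) + 2) (by omega)
    have hxy : x ≠ y := fun h => by rw [h] at ex; omega
    have hxz : x ≠ z := fun h => by rw [h] at ex; omega
    have hyz : y ≠ z := fun h => by rw [h] at ey; omega
    have h3 := (hind {x, y, z} (by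
      intro w hw
      simp only [mem_insert, mem_singleton] at hw
      rcases hw with rfl | rfl | rfl <;> assumption)).2
      (indW_three (by omega) (mem_range.1 hx) (mem_range.1 hy) hxy hxz hyz)
    simp only [image_insert, image_singleton, ex, ey, ez] at h3
    intro a b hab
    have := hlt 0 h0
    exact plane_trivial (by omega) (by omega) h3 (hW ▸ hab)
  -- step 5
  obtain ⟨e0, he0, hnext⟩ : ∃ e ∈ range (3 * n), ∀ x ∈ range (3 * n),
      f x / 3 ≠ (f e / 3 + 1) % m := by
    by_contra hcon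
    push Not at hcon
    have hall : ∀ k, ∃ x ∈ range (3 * n), f x / 3 = (f 0 / 3 + k) % m := by
      intro k
      induction k with
      | zero =>
        refine ⟨0, h0, ?_⟩
        have := hlt 0 h0
        rw [add_zero, Nat.mod_eq_of_lt (by omega)]
      | succ k ih =>
        obtain ⟨x, hx, ex⟩ := ih
        obtain ⟨y, hy, ey⟩ := hcon x hx
        refine ⟨y, hy, ?_⟩
        rw [ey, ex, Nat.mod_add_mod, add_assoc]
    have himg : (range (3 * n)).image f = range (3 * m) := by
      ext y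
      simp only [mem_image]
      constructor
      · rintro ⟨x, hx, rfl⟩
        exact mem_range.2 (hlt x hx)
      · intro hy
        have hy' := mem_range.1 hy
        have := hlt 0 h0
        obtain ⟨x, hx, ex⟩ := hall (m - f 0 / 3 + y / 3)
        rw [show f 0 / 3 + (m - f 0 / 3 + y / 3) = m + y / 3 by omega, Nat.add_mod_left,
          Nat.mod_eq_of_lt (by omega)] at ex
        exact hleg' x hx y ex.symm
    have := hcard _ (Subset.refl _)
    rw [himg, card_range, card_range] at this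
    omega
  -- step 6
  obtain ⟨i, hi⟩ : ∃ i, i = f e0 / 3 := ⟨_, rfl⟩
  rw [← hi] at hnext
  have him : i < m := by have := hlt e0 he0; omega
  obtain ⟨e, he, ee⟩ := hleg' e0 he0 (3 * i) (by omega)
  obtain ⟨I1, I2, s1, s2, c1, c2, e1, e2, hd, d1, d2⟩ := two_circuits hn (mem_range.1 he)
  have aux : ∀ I : Finset ℕ, I ⊆ range (3 * n) → I.card = 3 → e ∉ I → ¬ IndW ⊥ n (insert e I) →
      3 * i + 1 ∈ I.image f := by
    intro I hI hc heI hdep
    by_contra hcon
    apply hdep
    rw [← hind _ (insert_subset he hI), hW]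
    refine indW_of_bot ?_ hpl ?_
    · intro w hw
      obtain ⟨v, hv, rfl⟩ := mem_image.1 hw
      exact hun v (insert_subset he hI hv)
    · rw [image_insert, ee]
      refine four_indep (by omega) him ?_ ((hcard I hI).trans hc) ?_ hcon ?_
      · intro w hw
        obtain ⟨v, hv, rfl⟩ := mem_image.1 hw
        exact mem_range.2 (hlt v (hI hv))
      · intro hw
        obtain ⟨v, hv, hv'⟩ := mem_image.1 hw
        exact heI (hf' (hI hv) he (hv'.trans ee.symm) ▸ hv)
      · intro w hw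
        obtain ⟨v, hv, rfl⟩ := mem_image.1 hw
        exact hnext v (hI hv)
  obtain ⟨x1, hx1, l1⟩ := mem_image.1 (aux I1 s1 c1 e1 d1)
  obtain ⟨x2, hx2, l2⟩ := mem_image.1 (aux I2 s2 c2 e2 d2)
  exact disjoint_left.1 hd hx1 (hf' (s1 hx1) (s2 hx2) (l1.trans l2.symm) ▸ hx2)

theorem representable (n : ℕ) : ∃ k : ℕ, ∃ v : ℕ → (Fin k → ℝ),
    ∀ I : Set ℕ, I ⊆ (Mat n).E → ((Mat n).Indep I ↔ LinearIndepOn ℝ v I) := by
  refine ⟨n + 2, fun x j => vec n x j, fun I hI => ?_⟩
  have hI' : I ⊆ (range (3 * n) : Finset ℕ) := hI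
  obtain ⟨s, rfl⟩ : ∃ s : Finset ℕ, (s : Set ℕ) = I :=
    ⟨((range (3 * n)).finite_toSet.subset hI').toFinset, by simp⟩
  rw [Mat, vecMatroid_indep, and_iff_right hI', linearIndepOn_finset_iff,
    linearIndepOn_finset_iff]
  refine forall_congr' fun c => imp_congr_left ⟨fun h => ?_, fun h => ?_⟩
  · funext j
    have := congrFun h j
    simpa [Finset.sum_apply] using this
  · funext j
    by_cases hj : j < n + 2
    · have := congrFun h ⟨j, hj⟩
      simpa [Finset.sum_apply] using this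
    · rw [Finset.sum_apply]
      refine sum_eq_zero fun x hx => ?_
      have hx' : x < 3 * n := by simpa using hI' hx
      obtain ⟨l, rfl⟩ : ∃ l, j = l + 2 := ⟨j - 2, by omega⟩
      have : x / 3 ≠ l := by omega
      simp [vec_leg, this]

end Pool.Agent.Lib.MP_6e559c_co
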